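import Pool.Agent.Lib.MP_d5700b_nt.FW.RowN
import Pool.Agent.Lib.MP_d5700b_nt.FW.RowO
import Pool.Agent.Lib.MP_d5700b_nt.FW.RowP

set_option autoImplicit false

/-!
Upper bound for the least `m ≥ k + 2` such that every prime factor of `m.choose k` exceeds `k`.
-/

namespace Pool.Agent.Results.MP_d5700b_nt.LimsupBound

open Filter Pool.Agent.Lib.MP_d5700b_nt Pool.Agent.Lib.MP_d5700b_nt.FW

theorem result : ∃ k₀ : ℕ, ∀ k : ℕ, k₀ ≤ k →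
    ∃ g : ℕ, IsLeast {m : ℕ | k + 2 ≤ m ∧ ∀ p : ℕ, p.Prime → p ∣ m.choose k → k < p} g ∧
      Real.log g ≤ 5402 / 10000 * k := by
  obtain ⟨N, J, hN, hCF⟩ := RO.CF_lt
  set ε : ℝ := (5402 / 10000 - CF N J) / 2 with hεdef
  have hε : 0 < ε := by
    rw [hεdef]
    linarith
  obtain ⟨k₀, hk₀⟩ := eventually_atTop.mp
    ((upper2 cst N hN (fun i => cst_nonneg N i hN) (fun k J p hp => cost_G2 hN hp)
      (fun k J p hp => cost_B2 hN hp) ε hε).and (sum_le_CF_of cst_mono N J hN ε hε))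
  refine ⟨k₀, fun k hk => ?_⟩
  obtain ⟨⟨m, h1, h2, h3⟩, h4⟩ := hk₀ k hk
  have hne : {m : ℕ | k + 2 ≤ m ∧ ∀ p : ℕ, p.Prime → p ∣ m.choose k → k < p}.Nonempty :=
    ⟨m, h1, h2⟩
  refine ⟨sInf {m : ℕ | k + 2 ≤ m ∧ ∀ p : ℕ, p.Prime → p ∣ m.choose k → k < p},
    ⟨Nat.sInf_mem hne, fun n hn => Nat.sInf_le hn⟩, ?_⟩
  have h5 : sInf {m : ℕ | k + 2 ≤ m ∧ ∀ p : ℕ, p.Prime → p ∣ m.choose k → k < p} ≤ m :=
    Nat.sInf_le ⟨h1, h2⟩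
  have h6 : k + 2 ≤ sInf {m : ℕ | k + 2 ≤ m ∧ ∀ p : ℕ, p.Prime → p ∣ m.choose k → k < p} :=
    (Nat.sInf_mem hne).1
  have h7 : Real.log (sInf {m : ℕ | k + 2 ≤ m ∧ ∀ p : ℕ, p.Prime → p ∣ m.choose k → k < p} : ℕ) ≤
      Real.log m := by
    apply Real.log_le_log _ (by exact_mod_cast h5)
    exact_mod_cast (by omega : 0 < sInf {m : ℕ | k + 2 ≤ m ∧
      ∀ p : ℕ, p.Prime → p ∣ m.choose k → k < p})
  have h8 : (CF N J + ε) * (k : ℝ) + ε * k = 5402 / 10000 * k := by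
    rw [hεdef]
    ring
  linarith

end Pool.Agent.Results.MP_d5700b_nt.LimsupBound
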