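import Pool.Agent.Lib.MP_d5700b_nt.Comb51c

set_option autoImplicit false

/-!
In every interval `[M, M * exp (C * log (1 / ε) * k / log k)]` there is an integer `m` such that
the product of the primes `p ≤ k` dividing `m.choose k` is at most `exp (ε k)`.
-/

namespace Pool.Agent.Results.MP_d5700b_nt.SmallRadical

open Finset Pool.Agent.Lib.MP_d5700b_nt.Comb51

theorem result : ∃ C : ℝ, 0 < C ∧ ∀ k : ℕ, 2 ≤ k → ∀ ε : ℝ, 0 < ε → ε ≤ 1 / 2 →
    ∀ M : ℕ, 1 ≤ M → ∃ m : ℕ, k + 2 ≤ m ∧ M ≤ m ∧
      Real.log m ≤ Real.log M + C * Real.log (1 / ε) * (k / Real.log k) ∧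
      ((∏ p ∈ (range (k + 1)).filter (fun p => p.Prime ∧ p ∣ m.choose k), p : ℕ) : ℝ) ≤
        Real.exp (ε * k) := by
  obtain ⟨K, hK2, hK⟩ := large
  have hKr : (2 : ℝ) ≤ K := by exact_mod_cast hK2
  have hlK : 0 < Real.log K := Real.log_pos (by linarith)
  refine ⟨40 + 14 * Real.log K, by positivity, fun k hk ε hε0 hε1 M hM => ?_⟩
  have hMr : (1 : ℝ) ≤ M := by exact_mod_cast hM
  have hkr : (2 : ℝ) ≤ k := by exact_mod_cast hk
  have hk0 : (0 : ℝ) < k := by linarith
  have hlk : 0 < Real.log k := Real.log_pos (by linarith)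
  have hL1 : 0.69 ≤ Real.log (1 / ε) := by
    have h1 : Real.log 2 ≤ Real.log (1 / ε) := by
      apply Real.log_le_log (by norm_num)
      rw [le_div_iff₀ hε0]
      linarith
    have := Real.log_two_gt_d9
    linarith
  have hkl : 0 < (k : ℝ) / Real.log k := by positivity
  by_cases hcase : K ≤ k ∧ Real.log (1 / ε) ≤ 1 / 3 * Real.log k
  · obtain ⟨m, h1, hMm, h2, h3⟩ := main_large hK2 hK hcase.1 hε0 hε1 hcase.2 hM
    refine ⟨m, h1, hMm, h2.trans ?_, ?_⟩
    · apply add_le_add le_rfl
      apply mul_le_mul_of_nonneg_right _ hkl.le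
      apply mul_le_mul_of_nonneg_right _ (by linarith)
      linarith
    · rw [← Real.log_le_iff_le_exp]
      · exact h3
      · have : 0 < ∏ p ∈ (range (k + 1)).filter (fun p => p.Prime ∧ p ∣ m.choose k), p := by
          apply prod_pos
          intro p hp
          rw [mem_filter] at hp
          exact hp.2.1.pos
        exact_mod_cast this
  · obtain ⟨m, h1, hMm, h2, h3⟩ := exact_m k M hk
    refine ⟨m, h1, hMm, ?_, ?_⟩
    · have e0 : Real.log (M + 1) ≤ Real.log M + k := by
        have a1 : Real.log ((M : ℝ) + 1) ≤ Real.log (M * 2) :=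
          Real.log_le_log (by linarith) (by linarith)
        rw [Real.log_mul (by linarith) (by norm_num)] at a1
        have := Real.log_two_lt_d9
        linarith
      have e1 : 9 * (k : ℝ) = (9 * Real.log k) * (k / Real.log k) := by field_simp
      have e2 : (9 * Real.log k) * (k / Real.log k) ≤
          (40 + 14 * Real.log K) * Real.log (1 / ε) * (k / Real.log k) := ?_
      · linarith
      apply mul_le_mul_of_nonneg_right _ hkl.le
      by_cases hkK : K ≤ k
      · have hcase2 : 1 / 3 * Real.log k < Real.log (1 / ε) := by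
          by_contra hcon
          exact hcase ⟨hkK, le_of_not_gt hcon⟩
        nlinarith [mul_pos hlK (lt_of_lt_of_le (by norm_num : (0:ℝ) < 0.69) hL1)]
      · have h4 : Real.log k ≤ Real.log K :=
          Real.log_le_log hk0 (by exact_mod_cast (le_of_not_ge hkK))
        nlinarith [mul_le_mul_of_nonneg_left hL1 hlK.le]
    · have : (range (k + 1)).filter (fun p => p.Prime ∧ p ∣ m.choose k) = ∅ := by
        apply filter_eq_empty_iff.2
        intro p hp hp2
        rw [mem_range] at hp
        exact h3 p hp2.1 (by omega) hp2.2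
      rw [this, prod_empty, Nat.cast_one]
      exact Real.one_le_exp (by positivity)

end Pool.Agent.Results.MP_d5700b_nt.SmallRadical
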